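import Mathlib
import Pool.Agent.W795.FloqRel

/-!
# MP_214325_an: a factorised multiplier curve does not force `L = R(H)`

Darboux transform of `D⁴ + D²`: with `φ = 2 + cos x`, `h = φ'/φ`, `g = 1/φ` the operator
`L = D⁴ + (1 + 12 g² - 8 g) D² + h (4 g - 24 g²) D + (84 g³ - 18 g² - 72 g⁴)` has, for
`λ = μ⁴ + μ²`, the solutions `(μ - h(x)) e^{μ x}`.  Hence it has the same multipliers as
`D⁴ + D² = R(D²)`, `R(w) = w² + w`, but it is not of the form `R(H)`.
-/

set_option autoImplicit false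

open Filter Topology Matrix
open scoped ContDiff
open Pool.Agent.W795.Floq

namespace Pool.Agent.Results.MP_214325_an.NotPolynomial

/-! ## Definitions -/

/-- The Floquet matrix of a fundamental system: the entry `(k,j)` is the `k`-th derivative at `b`
of the `j`-th fundamental solution. -/
noncomputable def floquetMatrix {n : ℕ} (b : ℝ) (u : ℂ → Fin n → ℝ → ℂ) (l : ℂ) :
    Matrix (Fin n) (Fin n) ℂ :=
  Matrix.of fun k j => iteratedDeriv k (u l j) b

/-- `P(r;λ) = 0 ↔ ∏ [r + r⁻¹ - Δ(w_j(λ))] = 0` for all `λ` and all `r ≠ 0`, where the `w_j(λ)` are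
the roots of `R(w) - λ`, `R` is monic of degree `ν` and `Δ` is entire. -/
def CurveFactorises (ν : ℕ) (b : ℝ) (p : ℕ → ℝ → ℂ) (R : Polynomial ℂ) (Δ : ℂ → ℂ) : Prop :=
  R.Monic ∧ R.natDegree = ν ∧ Differentiable ℂ Δ ∧
    ∀ u, IsFundamentalSystem (2 * ν) p u → ∀ l r : ℂ, r ≠ 0 →
      ((r • (1 : Matrix (Fin (2 * ν)) (Fin (2 * ν)) ℂ) - floquetMatrix b u l).det = 0 ↔
        ((R - Polynomial.C l).roots.map fun w => r + r⁻¹ - Δ w).prod = 0)

/-- The function `L f = f^(n) + ∑_{k ≤ n-2} p_k f^(k)`. -/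
noncomputable def applyL (n : ℕ) (p : ℕ → ℝ → ℂ) (f : ℝ → ℂ) (x : ℝ) : ℂ :=
  iteratedDeriv n f x + ∑ k ∈ Finset.range (n - 1), p k x * iteratedDeriv k f x

/-- The Hill operator `H f = f'' + q f`. -/
noncomputable def hill (q : ℝ → ℂ) (f : ℝ → ℂ) (x : ℝ) : ℂ := iteratedDeriv 2 f x + q x * f x

/-- `R(H) f = ∑ c_k H^k f`. -/
noncomputable def polyHill (R : Polynomial ℂ) (q : ℝ → ℂ) (f : ℝ → ℂ) (x : ℝ) : ℂ :=
  ∑ k ∈ Finset.range (R.natDegree + 1), R.coeff k * ((hill q)^[k] f) x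

/-- `L = R(H)` as differential operators, `H = D² + q`. -/
def IsPolyOf (n : ℕ) (p : ℕ → ℝ → ℂ) (R : Polynomial ℂ) (q : ℝ → ℂ) : Prop :=
  ∀ f : ℝ → ℂ, ContDiff ℝ ∞ f → ∀ x, applyL n p f x = polyHill R q f x

/-! ## The coefficients -/

noncomputable def gR (x : ℝ) : ℝ := (2 + Real.cos x)⁻¹
noncomputable def hR (x : ℝ) : ℝ := - Real.sin x * (2 + Real.cos x)⁻¹

lemma den_pos (x : ℝ) : 0 < 2 + Real.cos x := by
  have := Real.neg_one_le_cos x
  linarith

lemma gR_deriv (x : ℝ) : HasDerivAt gR (-(hR x) * gR x) x := by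
  have h1 : HasDerivAt (fun x => 2 + Real.cos x) (-Real.sin x) x := (Real.hasDerivAt_cos x).const_add 2
  have h2 := h1.inv (den_pos x).ne'
  refine h2.congr_deriv ?_
  unfold hR gR
  have := (den_pos x).ne'
  field_simp

lemma hR_sq (x : ℝ) : hR x ^ 2 = 4 * gR x - 1 - 3 * gR x ^ 2 := by
  unfold hR gR
  have h0 := (den_pos x).ne'
  have := Real.sin_sq_add_cos_sq x
  field_simp
  nlinarith

lemma hR_deriv (x : ℝ) : HasDerivAt hR (3 * gR x ^ 2 - 2 * gR x) x := by
  have h1 := (Real.hasDerivAt_sin x).fun_neg.fun_mul (gR_deriv x)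
  refine h1.congr_deriv ?_
  unfold hR gR
  have h0 := (den_pos x).ne'
  have := Real.sin_sq_add_cos_sq x
  field_simp
  nlinarith

lemma gR_per (x : ℝ) : gR (x + 2 * Real.pi) = gR x := by
  unfold gR; rw [Real.cos_add_two_pi]

lemma hR_per (x : ℝ) : hR (x + 2 * Real.pi) = hR x := by
  unfold hR; rw [Real.cos_add_two_pi, Real.sin_add_two_pi]

lemma gR_smooth : ContDiff ℝ ∞ gR := by
  unfold gR
  exact (contDiff_const.add Real.contDiff_cos).inv fun x => (den_pos x).ne'

lemma hR_smooth : ContDiff ℝ ∞ hR := by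
  unfold hR
  exact Real.contDiff_sin.neg.mul ((contDiff_const.add Real.contDiff_cos).inv fun x => (den_pos x).ne')

noncomputable def pR : ℕ → ℝ → ℝ
  | 0, x => 84 * gR x ^ 3 - 18 * gR x ^ 2 - 72 * gR x ^ 4
  | 1, x => hR x * (4 * gR x - 24 * gR x ^ 2)
  | _, x => 1 + 12 * gR x ^ 2 - 8 * gR x

/-- the coefficients of the operator -/
noncomputable def pC (k : ℕ) (x : ℝ) : ℂ := (pR k x : ℂ)

lemma pR_smooth (k : ℕ) : ContDiff ℝ ∞ (pR k) := by
  have hg := gR_smooth
  have hh := hR_smooth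
  rcases k with _ | _ | k
  · exact ((contDiff_const.mul (hg.pow 3)).sub (contDiff_const.mul (hg.pow 2))).sub
      (contDiff_const.mul (hg.pow 4))
  · exact hh.mul ((contDiff_const.mul hg).sub (contDiff_const.mul (hg.pow 2)))
  · exact (contDiff_const.add (contDiff_const.mul (hg.pow 2))).sub (contDiff_const.mul hg)

lemma pC_smooth (k : ℕ) : ContDiff ℝ ∞ (pC k) :=
  Complex.ofRealCLM.contDiff.comp (pR_smooth k)

lemma pC_cont (k : ℕ) : Continuous (pC k) := (pC_smooth k).continuous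

lemma pC_per (k : ℕ) (x : ℝ) : pC k (x + 2 * Real.pi) = pC k x := by
  unfold pC
  congr 1
  rcases k with _ | _ | k <;> simp [pR, gR_per, hR_per]

/-! ## Explicit Floquet solutions -/

noncomputable def gC (x : ℝ) : ℂ := (gR x : ℂ)
noncomputable def hC (x : ℝ) : ℂ := (hR x : ℂ)

lemma gC_deriv (x : ℝ) : HasDerivAt gC (-(hC x) * gC x) x := by
  have := (gR_deriv x).ofReal_comp
  refine this.congr_deriv ?_
  simp [hC, gC]

lemma hC_deriv (x : ℝ) : HasDerivAt hC (3 * gC x ^ 2 - 2 * gC x) x := by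
  have := (hR_deriv x).ofReal_comp
  refine this.congr_deriv ?_
  simp [gC]

lemma hC_sq (x : ℝ) : hC x ^ 2 = 4 * gC x - 1 - 3 * gC x ^ 2 := by
  have := hR_sq x
  unfold hC gC
  exact_mod_cast this

/-- the solution and its first three derivatives -/
noncomputable def Z (μ : ℂ) (x : ℝ) : Fin 4 → ℂ :=
  ![(μ - hC x) * Complex.exp (μ * x),
    (μ ^ 2 - μ * hC x - (3 * gC x ^ 2 - 2 * gC x)) * Complex.exp (μ * x),
    (μ ^ 3 - μ ^ 2 * hC x - 2 * μ * (3 * gC x ^ 2 - 2 * gC x) - hC x * (2 * gC x - 6 * gC x ^ 2))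
      * Complex.exp (μ * x),
    (μ ^ 4 - μ ^ 3 * hC x - 3 * μ ^ 2 * (3 * gC x ^ 2 - 2 * gC x)
      - 3 * μ * (hC x * (2 * gC x - 6 * gC x ^ 2))
      - (72 * gC x ^ 3 - 54 * gC x ^ 4 - 24 * gC x ^ 2 + 2 * gC x)) * Complex.exp (μ * x)]

lemma exp_deriv (μ : ℂ) (x : ℝ) :
    HasDerivAt (fun x : ℝ => Complex.exp (μ * x)) (μ * Complex.exp (μ * x)) x := by
  have h1 : HasDerivAt (fun x : ℝ => μ * (x : ℂ)) μ x := by
    simpa using (Complex.ofRealCLM.hasDerivAt (x := x)).const_mul μ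
  have h2 := h1.cexp
  refine h2.congr_deriv ?_
  ring

lemma Z_sys (μ : ℂ) : IsSys (comp4 pC) spec4 (μ ^ 4 + μ ^ 2) (Z μ) := by
  rw [sys4_iff]
  intro x
  have hg := gC_deriv x
  have hh := hC_deriv x
  have he := exp_deriv μ x
  have hs := hC_sq x
  have g2 := hg.fun_pow 2
  have g3 := hg.fun_pow 3
  have g4 := hg.fun_pow 4
  refine ⟨?_, ?_, ?_, ?_⟩
  · refine ((hh.const_sub μ).fun_mul he).congr_deriv ?_
    simp only [Z, Matrix.cons_val_one, Matrix.cons_val_zero]
    ring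
  · refine ((((hh.const_mul μ).const_sub (μ ^ 2)).fun_sub
      ((g2.const_mul 3).fun_sub (hg.const_mul 2))).fun_mul he).congr_deriv ?_
    simp only [Z, Matrix.cons_val_two, Matrix.tail_cons, Matrix.head_cons]
    norm_num
    ring
  · refine (((((hh.const_mul (μ ^ 2)).const_sub (μ ^ 3)).fun_sub
      (((g2.const_mul 3).fun_sub (hg.const_mul 2)).const_mul (2 * μ))).fun_sub
      (hh.fun_mul ((hg.const_mul 2).fun_sub (g2.const_mul 6)))).fun_mul he).congr_deriv ?_
    simp only [Z, Matrix.cons_val]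
    norm_num
    linear_combination (-(12 * gC x ^ 2 - 2 * gC x) * Complex.exp (μ * x)) * hs
  · refine ((((((hh.const_mul (μ ^ 3)).const_sub (μ ^ 4)).fun_sub
      (((g2.const_mul 3).fun_sub (hg.const_mul 2)).const_mul (3 * μ ^ 2))).fun_sub
      ((hh.fun_mul ((hg.const_mul 2).fun_sub (g2.const_mul 6))).const_mul (3 * μ))).fun_sub
      ((((g3.const_mul 72).fun_sub (g4.const_mul 54)).fun_sub (g2.const_mul 24)).fun_add
        (hg.const_mul 2))).fun_mul he).congr_deriv ?_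
    simp only [Z, Matrix.cons_val, pC, pR]
    push_cast
    have e1 : ((gR x : ℝ) : ℂ) = gC x := rfl
    have e2 : ((hR x : ℝ) : ℂ) = hC x := rfl
    rw [e1, e2]
    norm_num
    linear_combination (μ * (2 * gC x - 12 * gC x ^ 2) * Complex.exp (μ * x)) * hs

lemma hC_zero : hC 0 = 0 := by simp [hC, hR]

lemma hC_half : hC (Real.pi / 2) = -(1 / 2) := by
  simp [hC, hR]

lemma Z_ne (μ : ℂ) : Z μ 0 ≠ 0 := by
  intro h0
  have h1 : IsSys (comp4 pC) spec4 (μ ^ 4 + μ ^ 2) (fun _ => (0 : Fin 4 → ℂ)) := by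
    intro x
    simpa using hasDerivAt_const x (0 : Fin 4 → ℂ)
  have h2 := sys_unique (comp4_cont pC_cont) (Z_sys μ) h1 h0
  have h3 : ∀ x, μ = hC x := by
    intro x
    have h4 := congrFun (congrFun h2 x) 0
    simp only [Z, Matrix.cons_val_zero, Pi.zero_apply, mul_eq_zero, Complex.exp_ne_zero,
      or_false] at h4
    exact sub_eq_zero.1 h4
  have h4 := h3 0
  have h5 := h3 (Real.pi / 2)
  rw [hC_zero] at h4
  rw [hC_half, h4] at h5
  norm_num at h5

lemma Z_per (μ : ℂ) : Z μ (2 * Real.pi) = Complex.exp (μ * (2 * Real.pi)) • Z μ 0 := by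
  have hg : gC (2 * Real.pi) = gC 0 := by
    unfold gC; rw [show 2 * Real.pi = 0 + 2 * Real.pi by ring, gR_per]
  have hh : hC (2 * Real.pi) = hC 0 := by
    unfold hC; rw [show 2 * Real.pi = 0 + 2 * Real.pi by ring, hR_per]
  ext i
  fin_cases i <;> simp [Z, hg, hh] <;> ring

/-- The Floquet matrix of a fundamental system acts as the monodromy, and depends analytically
on the spectral parameter. -/
lemma monodromy {b : ℝ} {p : ℕ → ℝ → ℂ} (hp : ∀ k, Continuous (p k)) :
    ∃ T : ℂ → Matrix (Fin 4) (Fin 4) ℂ, (∀ i j, Differentiable ℂ (fun l => T l i j)) ∧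
      (∀ l Y, IsSys (comp4 p) spec4 l Y → T l *ᵥ Y 0 = Y b) ∧
      (∃ u, IsFundamentalSystem 4 p u) ∧
      ∀ u, IsFundamentalSystem 4 p u → ∀ l, floquetMatrix b u l = T l := by
  obtain ⟨Y, h1, h2, h3, h4⟩ := exists_monodromy (comp4_cont hp) spec4
  refine ⟨fun l => Matrix.of fun i j => Y j l b i, ?_, fun l Z hZ => h4 l Z hZ b, ?_, ?_⟩
  · intro i j
    exact (differentiable_pi.1 (h3 j b)) i
  · refine ⟨fun l j x => Y j l x 0, fun l j => ?_⟩
    obtain ⟨e1, e2⟩ := sol_of_sys hp (h2 j l)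
    refine ⟨e1, fun k => ?_⟩
    rw [e2 k 0, h1]
    simp [Pi.single_apply]
  · intro u hu l
    ext i j
    have hY : (fun x => fun i : Fin 4 => iteratedDeriv i (u l j) x) = Y j l := by
      apply sys_unique (comp4_cont hp) (sys_of_sol (hu l j).1) (h2 j l)
      rw [h1]
      ext k
      rw [(hu l j).2 k]
      simp [Pi.single_apply]
    have := congrFun (congrFun hY b) i
    simpa [floquetMatrix] using this

/-! ## The entire function `Δ(w) = 2 cosh(2π√w)` -/

/-- `Δ(w) = 2 ∑ (4π² w)^k/(2k)!` -/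
noncomputable def Dl (w : ℂ) : ℂ := 2 * ∑' k : ℕ, ((2 * Real.pi) ^ 2 * w) ^ k / (2 * k).factorial

lemma Dl_sq (μ : ℂ) : Dl (μ ^ 2) = Complex.exp (μ * (2 * Real.pi)) + Complex.exp (-(μ * (2 * Real.pi))) := by
  have h1 := (Complex.hasSum_cosh (μ * (2 * Real.pi))).tsum_eq
  have h2 : (∑' k : ℕ, ((2 * Real.pi : ℂ) ^ 2 * μ ^ 2) ^ k / ((2 * k).factorial : ℂ))
      = Complex.cosh (μ * (2 * Real.pi)) := by
    rw [← h1]
    congr 1
    funext k
    rw [pow_mul]
    congr 2
    ring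
  unfold Dl
  rw [h2, Complex.cosh]
  ring

lemma Dl_diff : Differentiable ℂ Dl := by
  unfold Dl
  apply Differentiable.const_mul
  intro w
  -- on the ball of radius `‖w‖ + 1`
  set K : ℝ := (2 * Real.pi) ^ 2 * (‖w‖ + 1) with hK
  have hK0 : 0 ≤ K := by positivity
  have hs : Summable (fun k : ℕ => K ^ k / k.factorial) := Real.summable_pow_div_factorial K
  have hd : DifferentiableOn ℂ (fun w : ℂ => ∑' k : ℕ, ((2 * Real.pi : ℂ) ^ 2 * w) ^ k / (2 * k).factorial)
      (Metric.ball 0 (‖w‖ + 1)) := by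
    apply Complex.differentiableOn_tsum_of_summable_norm hs
    · intro k
      apply Differentiable.differentiableOn
      fun_prop
    · exact Metric.isOpen_ball
    · intro k z hz
      rw [mem_ball_zero_iff] at hz
      rw [norm_div, norm_pow, norm_mul, norm_pow]
      have e1 : ‖(2 * Real.pi : ℂ)‖ = 2 * Real.pi := by
        rw [norm_mul, Complex.norm_real, Real.norm_eq_abs, abs_of_pos Real.pi_pos]
        norm_num
      have e2 : ‖((2 * k).factorial : ℂ)‖ = (2 * k).factorial := Complex.norm_natCast _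
      rw [e1, e2]
      have e3 : ((2 * Real.pi) ^ 2 * ‖z‖) ^ k ≤ K ^ k := by
        apply pow_le_pow_left₀ (by positivity)
        exact mul_le_mul_of_nonneg_left hz.le (by positivity)
      have e4 : (k.factorial : ℝ) ≤ (2 * k).factorial := by
        exact_mod_cast Nat.factorial_le (by omega)
      exact div_le_div₀ (by positivity) e3 (by positivity) e4
  exact (hd.differentiableAt (Metric.isOpen_ball.mem_nhds (by
    rw [mem_ball_zero_iff]; linarith))) 


/-! ## The characteristic polynomial -/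

lemma det_eval (T : Matrix (Fin 4) (Fin 4) ℂ) (r : ℂ) :
    (r • (1 : Matrix (Fin 4) (Fin 4) ℂ) - T).det = T.charpoly.eval r := by
  rw [Matrix.eval_charpoly, Matrix.scalar_apply, ← Matrix.smul_one_eq_diagonal]

open Polynomial in
lemma char_four {T : Matrix (Fin 4) (Fin 4) ℂ} {z1 z2 z3 z4 : ℂ} (h1 : T.charpoly.IsRoot z1)
    (h2 : T.charpoly.IsRoot z2) (h3 : T.charpoly.IsRoot z3) (h4 : T.charpoly.IsRoot z4)
    (n12 : z1 ≠ z2) (n13 : z1 ≠ z3) (n14 : z1 ≠ z4) (n23 : z2 ≠ z3) (n24 : z2 ≠ z4)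
    (n34 : z3 ≠ z4) (r : ℂ) :
    (r • (1 : Matrix (Fin 4) (Fin 4) ℂ) - T).det = (r - z1) * (r - z2) * ((r - z3) * (r - z4)) := by
  have hcard : ({z1, z2, z3, z4} : Finset ℂ).card = 4 := by
    rw [Finset.card_insert_of_notMem, Finset.card_insert_of_notMem, Finset.card_insert_of_notMem,
      Finset.card_singleton]
    · simpa using n34
    · simp [n23, n24]
    · simp [n12, n13, n14]
  have hg : ((X - C z1) * (X - C z2) * ((X - C z3) * (X - C z4)) : ℂ[X]).Monic :=
    ((monic_X_sub_C z1).mul (monic_X_sub_C z2)).mul ((monic_X_sub_C z3).mul (monic_X_sub_C z4))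
  have hgd : ((X - C z1) * (X - C z2) * ((X - C z3) * (X - C z4)) : ℂ[X]).natDegree = 4 := by
    rw [((monic_X_sub_C z1).mul (monic_X_sub_C z2)).natDegree_mul
      ((monic_X_sub_C z3).mul (monic_X_sub_C z4)), (monic_X_sub_C z1).natDegree_mul
      (monic_X_sub_C z2), (monic_X_sub_C z3).natDegree_mul (monic_X_sub_C z4)]
    simp
  have hf := T.charpoly_monic
  have hfd : T.charpoly.natDegree = 4 := by rw [T.charpoly_natDegree_eq_dim]; simp
  have hdeg : T.charpoly.degree = 4 := by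
    rw [degree_eq_natDegree hf.ne_zero, hfd]; rfl
  have hdeg' : ((X - C z1) * (X - C z2) * ((X - C z3) * (X - C z4)) : ℂ[X]).degree = 4 := by
    rw [degree_eq_natDegree hg.ne_zero, hgd]; rfl
  have key : T.charpoly = (X - C z1) * (X - C z2) * ((X - C z3) * (X - C z4)) := by
    apply eq_of_degree_le_of_eval_finset_eq ({z1, z2, z3, z4} : Finset ℂ)
    · rw [hcard, hdeg]; rfl
    · rw [hdeg, hdeg']
    · rw [hf.leadingCoeff, hg.leadingCoeff]
    · intro x hx
      simp only [Finset.mem_insert, Finset.mem_singleton] at hx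
      rcases hx with rfl | rfl | rfl | rfl
      · rw [h1.eq_zero]; simp
      · rw [h2.eq_zero]; simp
      · rw [h3.eq_zero]; simp
      · rw [h4.eq_zero]; simp
  rw [det_eval, key]
  simp

/-- the identity on a real segment -/
lemma segment {T : ℂ → Matrix (Fin 4) (Fin 4) ℂ}
    (hT : ∀ l Y, IsSys (comp4 pC) spec4 l Y → T l *ᵥ Y 0 = Y (2 * Real.pi)) (r : ℂ) (w : ℝ)
    (hw0 : 0 < w) (hw1 : w < 1 / 4) :
    (r • (1 : Matrix (Fin 4) (Fin 4) ℂ) - T ((w : ℂ) ^ 2 + w)).det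
      = (r ^ 2 - Dl w * r + 1) * (r ^ 2 - Dl (-1 - w) * r + 1) := by
  set t := √w with ht
  have ht2 : t ^ 2 = w := Real.sq_sqrt hw0.le
  have ht0 : 0 < t := Real.sqrt_pos.2 hw0
  set ν := √(1 + w) with hν
  have hν2 : ν ^ 2 = 1 + w := Real.sq_sqrt (by linarith)
  have hν1 : 1 < ν := by
    rw [hν, Real.lt_sqrt (by norm_num)]; linarith
  have hν3 : ν < 3 / 2 := by
    rw [hν, Real.sqrt_lt' (by norm_num)]; linarith
  have hroot : ∀ μ : ℂ, μ ^ 4 + μ ^ 2 = (w : ℂ) ^ 2 + w →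
      (T ((w : ℂ) ^ 2 + w)).charpoly.IsRoot (Complex.exp (μ * (2 * Real.pi))) := by
    intro μ hμ
    refine isRoot_of_eig (v := Z μ 0) ?_ (Z_ne μ)
    rw [hT _ _ (hμ ▸ Z_sys μ), Z_per]
  have hwc : (w : ℂ) = (t : ℂ) ^ 2 := by rw [← ht2]; push_cast; ring
  have hνc : (ν : ℂ) ^ 2 = 1 + w := by exact_mod_cast hν2
  have r1 := hroot t (by rw [hwc]; ring)
  have r2 := hroot (-t) (by rw [hwc]; ring)
  have hI : Complex.I ^ 2 = -1 := Complex.I_sq
  have e3 : (Complex.I * ν) ^ 2 = -1 - w := by rw [mul_pow, hI, hνc]; ring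
  have e3' : (-(Complex.I * ν)) ^ 2 = -1 - w := by rw [neg_sq, e3]
  have r3 := hroot (Complex.I * ν) (by
    have : (Complex.I * ν) ^ 4 = ((Complex.I * ν) ^ 2) ^ 2 := by ring
    rw [this, e3]; ring)
  have r4 := hroot (-(Complex.I * ν)) (by
    have : (-(Complex.I * ν)) ^ 4 = ((-(Complex.I * ν)) ^ 2) ^ 2 := by ring
    rw [this, e3']; ring)
  have hpi := Real.pi_pos
  have m1 : 1 < ‖Complex.exp (t * (2 * Real.pi))‖ := by
    rw [Complex.norm_exp]
    have : ((t : ℂ) * (2 * Real.pi)).re = t * (2 * Real.pi) := by simp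
    rw [this, Real.one_lt_exp_iff]
    positivity
  have m2 : ‖Complex.exp (-t * (2 * Real.pi))‖ < 1 := by
    rw [Complex.norm_exp]
    have : (-(t : ℂ) * (2 * Real.pi)).re = -(t * (2 * Real.pi)) := by simp
    rw [this, Real.exp_lt_one_iff]
    have : 0 < t * (2 * Real.pi) := by positivity
    linarith
  have m3 : ‖Complex.exp (Complex.I * ν * (2 * Real.pi))‖ = 1 := by
    rw [Complex.norm_exp]
    have : (Complex.I * (ν : ℂ) * (2 * Real.pi)).re = 0 := by simp
    rw [this, Real.exp_zero]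
  have m4 : ‖Complex.exp (-(Complex.I * ν) * (2 * Real.pi))‖ = 1 := by
    rw [Complex.norm_exp]
    have : (-(Complex.I * (ν : ℂ)) * (2 * Real.pi)).re = 0 := by simp
    rw [this, Real.exp_zero]
  have hsin : 0 < Real.sin (ν * (2 * Real.pi)) := by
    have : Real.sin (ν * (2 * Real.pi)) = Real.sin (ν * (2 * Real.pi) - 2 * Real.pi) := by
      rw [Real.sin_sub_two_pi]
    rw [this]
    apply Real.sin_pos_of_pos_of_lt_pi
    · nlinarith
    · nlinarith
  have i3 : 0 < (Complex.exp (Complex.I * ν * (2 * Real.pi))).im := by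
    rw [Complex.exp_im]
    have e1 : (Complex.I * (ν : ℂ) * (2 * Real.pi)).re = 0 := by simp
    have e2 : (Complex.I * (ν : ℂ) * (2 * Real.pi)).im = ν * (2 * Real.pi) := by simp
    rw [e1, e2, Real.exp_zero, one_mul]
    exact hsin
  have i4 : (Complex.exp (-(Complex.I * ν) * (2 * Real.pi))).im < 0 := by
    rw [Complex.exp_im]
    have e1 : (-(Complex.I * (ν : ℂ)) * (2 * Real.pi)).re = 0 := by simp
    have e2 : (-(Complex.I * (ν : ℂ)) * (2 * Real.pi)).im = -(ν * (2 * Real.pi)) := by simp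
    rw [e1, e2, Real.exp_zero, one_mul, Real.sin_neg]
    linarith
  rw [char_four r1 r2 r3 r4
    (fun h => by rw [h] at m1; linarith) (fun h => by rw [h] at m1; linarith)
    (fun h => by rw [h] at m1; linarith) (fun h => by rw [h] at m2; linarith)
    (fun h => by rw [h] at m2; linarith) (fun h => by rw [h] at i3; linarith)]
  have d1 : Dl w = Complex.exp (t * (2 * Real.pi)) + Complex.exp (-t * (2 * Real.pi)) := by
    rw [hwc, Dl_sq]
    congr 2
    ring
  have d2 : Dl (-1 - w) = Complex.exp (Complex.I * ν * (2 * Real.pi))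
      + Complex.exp (-(Complex.I * ν) * (2 * Real.pi)) := by
    rw [← e3, Dl_sq]
    congr 2
    ring
  have p1 : Complex.exp (t * (2 * Real.pi)) * Complex.exp (-t * (2 * Real.pi)) = 1 := by
    rw [← Complex.exp_add]
    have : (t : ℂ) * (2 * Real.pi) + -t * (2 * Real.pi) = 0 := by ring
    rw [this, Complex.exp_zero]
  have p2 : Complex.exp (Complex.I * ν * (2 * Real.pi))
      * Complex.exp (-(Complex.I * ν) * (2 * Real.pi)) = 1 := by
    rw [← Complex.exp_add]
    have : Complex.I * (ν : ℂ) * (2 * Real.pi) + -(Complex.I * ν) * (2 * Real.pi) = 0 := by ring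
    rw [this, Complex.exp_zero]
  rw [d1, d2]
  congr 1
  · linear_combination p1
  · linear_combination p2

/-- the identity for all parameters -/
lemma det_formula {T : ℂ → Matrix (Fin 4) (Fin 4) ℂ}
    (hd : ∀ i j, Differentiable ℂ (fun l => T l i j))
    (hT : ∀ l Y, IsSys (comp4 pC) spec4 l Y → T l *ᵥ Y 0 = Y (2 * Real.pi)) (r w : ℂ) :
    (r • (1 : Matrix (Fin 4) (Fin 4) ℂ) - T (w ^ 2 + w)).det
      = (r ^ 2 - Dl w * r + 1) * (r ^ 2 - Dl (-1 - w) * r + 1) := by
  have hf : Differentiable ℂ (fun w : ℂ => (r • (1 : Matrix (Fin 4) (Fin 4) ℂ) - T (w ^ 2 + w)).det) := by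
    simp only [Matrix.det_apply]
    apply Differentiable.fun_sum
    intro σ _
    apply Differentiable.const_smul
    apply Differentiable.fun_finsetProd
    intro i _
    simp only [Matrix.sub_apply]
    apply Differentiable.const_sub
    exact (hd _ _).comp (by fun_prop : Differentiable ℂ (fun w : ℂ => w ^ 2 + w))
  have hg : Differentiable ℂ (fun w : ℂ => (r ^ 2 - Dl w * r + 1) * (r ^ 2 - Dl (-1 - w) * r + 1)) := by
    have h1 := Dl_diff
    have h2 : Differentiable ℂ (fun w : ℂ => Dl (-1 - w)) :=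
      Dl_diff.comp (by fun_prop : Differentiable ℂ (fun w : ℂ => -1 - w))
    fun_prop
  have hfreq : ∃ᶠ z in 𝓝[≠] ((1 / 16 : ℝ) : ℂ),
      (r • (1 : Matrix (Fin 4) (Fin 4) ℂ) - T (z ^ 2 + z)).det
        = (r ^ 2 - Dl z * r + 1) * (r ^ 2 - Dl (-1 - z) * r + 1) := by
    have ht : Tendsto (fun n : ℕ => ((1 / 16 + 1 / ((n:ℝ) + 1) / 8 : ℝ) : ℂ)) atTop
        (𝓝[≠] ((1 / 16 : ℝ) : ℂ)) := by
      apply tendsto_nhdsWithin_of_tendsto_nhds_of_eventually_within
      · have h1 : Tendsto (fun n : ℕ => (1 / 16 + 1 / ((n:ℝ) + 1) / 8 : ℝ)) atTop (𝓝 (1 / 16 + 0 / 8)) :=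
          (tendsto_one_div_add_atTop_nhds_zero_nat.div_const 8).const_add _
        rw [zero_div, add_zero] at h1
        exact (Complex.continuous_ofReal.tendsto _).comp h1
      · refine Eventually.of_forall fun n => ?_
        simp only [Set.mem_compl_iff, Set.mem_singleton_iff, Complex.ofReal_inj]
        have : (0:ℝ) < 1 / ((n:ℝ) + 1) / 8 := by positivity
        linarith
    refine ht.frequently (Frequently.of_forall fun n => ?_)
    apply segment hT
    · positivity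
    · have : 1 / ((n:ℝ) + 1) ≤ 1 := by
        rw [div_le_one (by positivity)]
        have : (0:ℝ) ≤ n := Nat.cast_nonneg n
        linarith
      linarith
  have := AnalyticOnNhd.eq_of_frequently_eq (fun z _ => hf.analyticAt z)
    (fun z _ => hg.analyticAt z) hfreq
  exact congrFun this w

/-! ## The operator is not a polynomial in a Hill operator -/

lemma it2 {f f1 f2 : ℝ → ℂ} (h1 : ∀ x, HasDerivAt f (f1 x) x) (h2 : ∀ x, HasDerivAt f1 (f2 x) x)
    (x : ℝ) : iteratedDeriv 2 f x = f2 x := by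
  rw [iteratedDeriv_succ, iteratedDeriv_one]
  have : deriv f = f1 := funext fun x => (h1 x).deriv
  rw [this, (h2 x).deriv]

lemma it4 {f f1 f2 f3 f4 : ℝ → ℂ} (h1 : ∀ x, HasDerivAt f (f1 x) x)
    (h2 : ∀ x, HasDerivAt f1 (f2 x) x) (h3 : ∀ x, HasDerivAt f2 (f3 x) x)
    (h4 : ∀ x, HasDerivAt f3 (f4 x) x) (x : ℝ) : iteratedDeriv 4 f x = f4 x := by
  rw [iteratedDeriv_succ, iteratedDeriv_succ]
  have : iteratedDeriv 2 f = f2 := funext fun x => it2 h1 h2 x
  rw [this]
  have : deriv f2 = f3 := funext fun x => (h3 x).deriv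
  rw [this, (h4 x).deriv]

lemma not_poly (R : Polynomial ℂ) (hR : R.Monic) (hd : R.natDegree = 2) (q : ℝ → ℂ)
    (hq : ContDiff ℝ 2 q) : ¬ IsPolyOf 4 pC R q := by
  intro h
  -- derivatives of q
  have hq0 : ∀ x, HasDerivAt q (deriv q x) x := fun x =>
    (hq.differentiable (by norm_num) x).hasDerivAt
  have hq1 : ∀ x, HasDerivAt (deriv q) (deriv (deriv q) x) x := by
    intro x
    have h1 : ContDiff ℝ 1 (deriv q) := ((contDiff_succ_iff_deriv (n := 1)).1 hq).2.2
    exact (h1.differentiable (by norm_num) x).hasDerivAt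
  have hid : ∀ x : ℝ, HasDerivAt (fun y : ℝ => (y : ℂ)) 1 x := fun x =>
    (hasDerivAt_id' x).ofReal_comp.congr_deriv (by simp)
  set c0 := R.coeff 0
  set c1 := R.coeff 1
  have hc2 : R.coeff 2 = 1 := by rw [← hd]; exact hR
  have hpoly : ∀ f x, polyHill R q f x = c0 * f x + c1 * hill q f x + hill q (hill q f) x := by
    intro f x
    unfold polyHill
    rw [hd]
    simp only [Finset.sum_range_succ, Finset.sum_range_zero, Function.iterate_succ,
      Function.iterate_zero, Function.comp_apply, id, hc2]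
    ring
  have happ : ∀ f x, applyL 4 pC f x = iteratedDeriv 4 f x
      + (pC 0 x * f x + pC 1 x * deriv f x + pC 2 x * iteratedDeriv 2 f x) := by
    intro f x
    unfold applyL
    simp only [Finset.sum_range_succ, Finset.sum_range_zero, iteratedDeriv_zero, iteratedDeriv_one,
      Nat.add_one_sub_one]
    ring
  set q1 := deriv q
  set q2 := deriv (deriv q)
  -- test on 1
  have E1 : ∀ x, pC 0 x = c0 + c1 * q x + (q2 x + q x ^ 2) := by
    intro x
    have hc : ∀ c : ℂ, ∀ x : ℝ, HasDerivAt (fun _ : ℝ => c) 0 x := fun c x => hasDerivAt_const x c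
    have e := h (fun _ => 1) contDiff_const x
    rw [happ, hpoly] at e
    have t1 : hill q (fun _ => 1) = q := by
      funext y
      unfold hill
      rw [it2 (hc 1) (hc 0) y]
      ring
    rw [t1, it4 (hc 1) (hc 0) (hc 0) (hc 0) x, it2 (hc 1) (hc 0) x, (hc 1 x).deriv] at e
    have t2 : hill q q x = q2 x + q x ^ 2 := by
      unfold hill
      rw [it2 hq0 hq1 x]
      ring
    rw [t2] at e
    linear_combination e
  -- test on y
  have E2 : ∀ x, pC 1 x = 2 * q1 x := by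
    intro x
    have hc : ∀ c : ℂ, ∀ x : ℝ, HasDerivAt (fun _ : ℝ => c) 0 x := fun c x => hasDerivAt_const x c
    have e := h (fun y => (y : ℂ)) Complex.ofRealCLM.contDiff x
    rw [happ, hpoly] at e
    have t1 : hill q (fun y => (y : ℂ)) = fun y => q y * y := by
      funext y
      unfold hill
      rw [it2 hid (hc 1) y]
      ring
    have d1 : ∀ y : ℝ, HasDerivAt (fun y : ℝ => q y * (y:ℂ)) (q1 y * y + q y * 1) y := fun y =>
      (hq0 y).fun_mul (hid y)
    have d2 : ∀ y : ℝ, HasDerivAt (fun y : ℝ => q1 y * (y:ℂ) + q y * 1)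
        ((q2 y * y + q1 y * 1) + q1 y * 1) y := fun y =>
      ((hq1 y).fun_mul (hid y)).fun_add ((hq0 y).mul_const 1)
    rw [t1, it4 hid (hc 1) (hc 0) (hc 0) x, it2 hid (hc 1) x, (hid x).deriv] at e
    have t2 : hill q (fun y => q y * (y:ℂ)) x = (q2 x * x + q1 x * 1) + q1 x * 1
        + q x * (q x * x) := by
      unfold hill
      rw [it2 d1 d2 x]
    rw [t2] at e
    have := E1 x
    linear_combination e - (x : ℂ) * this
  -- test on y^2
  have E3 : ∀ x, pC 2 x = c1 + 2 * q x := by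
    intro x
    have hc : ∀ c : ℂ, ∀ x : ℝ, HasDerivAt (fun _ : ℝ => c) 0 x := fun c x => hasDerivAt_const x c
    have s1 : ∀ y : ℝ, HasDerivAt (fun y : ℝ => (y:ℂ) ^ 2) (2 * (y:ℂ)) y := fun y =>
      ((hid y).fun_pow 2).congr_deriv (by simp)
    have s2 : ∀ y : ℝ, HasDerivAt (fun y : ℝ => 2 * (y:ℂ)) 2 y := fun y =>
      ((hid y).const_mul 2).congr_deriv (by simp)
    have e := h (fun y => (y : ℂ) ^ 2) (Complex.ofRealCLM.contDiff.pow 2) x
    rw [happ, hpoly] at e
    have t1 : hill q (fun y => (y : ℂ) ^ 2) = fun y => 2 + q y * (y:ℂ) ^ 2 := by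
      funext y
      unfold hill
      rw [it2 s1 s2 y]
    have d1 : ∀ y : ℝ, HasDerivAt (fun y : ℝ => 2 + q y * (y:ℂ) ^ 2)
        (q1 y * (y:ℂ) ^ 2 + q y * (2 * y)) y := fun y =>
      ((hq0 y).fun_mul (s1 y)).const_add 2
    have d2 : ∀ y : ℝ, HasDerivAt (fun y : ℝ => q1 y * (y:ℂ) ^ 2 + q y * (2 * y))
        ((q2 y * (y:ℂ) ^ 2 + q1 y * (2 * y)) + (q1 y * (2 * y) + q y * 2)) y := fun y =>
      ((hq1 y).fun_mul (s1 y)).fun_add ((hq0 y).fun_mul (s2 y))
    rw [t1, it4 s1 s2 (hc 2) (hc 0) x, it2 s1 s2 x, (s1 x).deriv] at e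
    have t2 : hill q (fun y => 2 + q y * (y:ℂ) ^ 2) x
        = (q2 x * (x:ℂ) ^ 2 + q1 x * (2 * x)) + (q1 x * (2 * x) + q x * 2)
        + q x * (2 + q x * (x:ℂ) ^ 2) := by
      unfold hill
      rw [it2 d1 d2 x]
    rw [t2] at e
    have h1 := E1 x
    have h2 := E2 x
    linear_combination (1 / 2 : ℂ) * e - (x : ℂ) ^ 2 / 2 * h1 - (x : ℂ) * h2
  -- contradiction at π/2
  have hp2 : ∀ x, HasDerivAt (pC 2) (2 * q1 x) x := by
    intro x
    have h1 : pC 2 = fun x => c1 + 2 * q x := funext E3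
    rw [h1]
    exact ((hq0 x).const_mul 2).const_add c1
  have hp2' : ∀ x, HasDerivAt (pC 2) (12 * (2 * gC x * (-(hC x) * gC x)) - 8 * (-(hC x) * gC x)) x := by
    intro x
    have h1 : pC 2 = fun x => 1 + 12 * gC x ^ 2 - 8 * gC x := by
      funext x
      simp [pC, pR, gC]
    rw [h1]
    have hg := gC_deriv x
    exact ((((hg.fun_pow 2).const_mul 12).const_add 1).fun_sub (hg.const_mul 8)).congr_deriv
      (by simp)
  have h3 := (hp2 (Real.pi / 2)).unique (hp2' (Real.pi / 2))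
  rw [← E2] at h3
  have hg : gC (Real.pi / 2) = 1 / 2 := by simp [gC, gR]
  have hp1 : pC 1 (Real.pi / 2) = hC (Real.pi / 2) * (4 * gC (Real.pi / 2) - 24 * gC (Real.pi / 2) ^ 2) := by
    simp [pC, pR, gC, hC]
  rw [hp1, hg, hC_half] at h3
  norm_num at h3

open Polynomial in
/-- The answer is negative, already for `n = 4` (`ν = 2`) and real valued smooth coefficients: there
are real valued, smooth, `2π`-periodic coefficients, and an entire `Δ`, such that the multiplier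
curve factorises with `R(w) = w² + w`, but the operator is not `R'(H)` for any Hill operator `H`
and any monic quadratic polynomial `R'`. -/
theorem result :
    ∃ (p : ℕ → ℝ → ℂ) (Δ : ℂ → ℂ), (∀ k, ContDiff ℝ ∞ (p k)) ∧ (∀ k x, (p k x).im = 0) ∧
      (∀ k x, p k (x + 2 * Real.pi) = p k x) ∧
      (∃ u, IsFundamentalSystem (2 * 2) p u) ∧
      CurveFactorises 2 (2 * Real.pi) p (X ^ 2 + X) Δ ∧
      ∀ R : ℂ[X], R.Monic → R.natDegree = 2 → ∀ q : ℝ → ℂ, ContDiff ℝ 2 q →
        ¬ IsPolyOf (2 * 2) p R q := by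
  obtain ⟨T, hd, hT, hex, huniq⟩ := monodromy (b := 2 * Real.pi) pC_cont
  refine ⟨pC, Dl, pC_smooth, fun k x => Complex.ofReal_im _, pC_per, hex, ?_, not_poly⟩
  have hRm : (X ^ 2 + X : ℂ[X]).Monic := by monicity!
  refine ⟨hRm, by compute_degree!, Dl_diff, ?_⟩
  intro u hu l r hr
  -- a root
  obtain ⟨z, hz⟩ := IsAlgClosed.exists_pow_nat_eq (1 + 4 * l) (n := 2) (by norm_num)
  set w := (-1 + z) / 2 with hw
  have hwl : w ^ 2 + w = l := by
    rw [hw]
    linear_combination (1 / 4 : ℂ) * hz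
  have hfac : (X ^ 2 + X - C l : ℂ[X]) = (X - C w) * (X - C (-1 - w)) := by
    rw [← hwl]
    simp only [C_sub, C_neg, C_add, C_pow, map_one]
    ring
  have hroots : (X ^ 2 + X - C l : ℂ[X]).roots = {w, -1 - w} := by
    rw [hfac, roots_mul ((monic_X_sub_C _).mul (monic_X_sub_C _)).ne_zero, roots_X_sub_C,
      roots_X_sub_C]
    rfl
  rw [hroots]
  have e1 : floquetMatrix (2 * Real.pi) u l = T l := huniq u hu l
  have e2 := det_formula hd hT r w
  rw [hwl] at e2
  have e3 : (r • (1 : Matrix (Fin (2 * 2)) (Fin (2 * 2)) ℂ) - floquetMatrix (2 * Real.pi) u l).det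
      = (r ^ 2 - Dl w * r + 1) * (r ^ 2 - Dl (-1 - w) * r + 1) := by
    rw [e1]; exact e2
  rw [e3]
  have e4 : (Multiset.map (fun w => r + r⁻¹ - Dl w) {w, -1 - w}).prod
      = (r + r⁻¹ - Dl w) * (r + r⁻¹ - Dl (-1 - w)) := by
    simp
  rw [e4]
  have e5 : ∀ a : ℂ, r ^ 2 - a * r + 1 = r * (r + r⁻¹ - a) := by
    intro a
    field_simp
    ring
  rw [e5, e5]
  simp [hr]

end Pool.Agent.Results.MP_214325_an.NotPolynomial
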